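import Pool.Agent.helper85.PG.Spec3

/-!
# pg:GAI: a proper progression in `A + A - A - A`
-/

set_option autoImplicit false

namespace Pool.Agent.helper85.PG

open Module Pointwise

theorem GAI_floor (x : ℝ) (hx : 1 ≤ x) : x / 2 ≤ (⌊x⌋₊ : ℝ) := by
  have h1 : x < (⌊x⌋₊ : ℝ) + 1 := Nat.lt_floor_add_one x
  have h2 : (1 : ℝ) ≤ (⌊x⌋₊ : ℝ) := by
    have : 1 ≤ ⌊x⌋₊ := Nat.le_floor (by rw [Nat.cast_one]; exact hx)
    exact_mod_cast this
  linarith

theorem GAI_fst {E : Type} [AddCommGroup E] {m : ℕ} {s : ℕ} (v : Fin s → E × ZMod m)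
    (n : Fin s → ℤ) : (∑ i, n i • v i).1 = ∑ i, n i • (v i).1 := by
  rw [Prod.fst_sum]
  rfl

theorem GAI_snd {E : Type} [AddCommGroup E] {m : ℕ} {s : ℕ} (v : Fin s → E × ZMod m)
    (n : Fin s → ℤ) : (∑ i, n i • v i).2 = ∑ i, (n i : ZMod m) * (v i).2 := by
  rw [Prod.snd_sum]
  apply Finset.sum_congr rfl
  intro i _
  rw [Prod.smul_snd, zsmul_eq_mul]

theorem GAI_prod {s : ℕ} (a b : Fin s → ℝ) (ha : ∀ i, 0 < a i) (t : ℝ) (ht : 0 < t)
    (h : ∀ i, 1 / (t * a i) ≤ b i) : 1 ≤ t ^ s * (∏ i, a i) * ∏ i, b i := by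
  have h1 : ∀ i, 1 ≤ t * a i * b i := by
    intro i
    have hta : 0 < t * a i := mul_pos ht (ha i)
    have := mul_le_mul_of_nonneg_left (h i) hta.le
    rwa [mul_one_div_cancel hta.ne'] at this
  have h2 : (1 : ℝ) ≤ ∏ i, (t * a i * b i) := by
    calc (1 : ℝ) = ∏ _i : Fin s, (1 : ℝ) := by rw [Finset.prod_const_one]
      _ ≤ ∏ i, (t * a i * b i) := Finset.prod_le_prod (fun _ _ => zero_le_one) (fun i _ => h1 i)
  rw [Finset.prod_mul_distrib, Finset.prod_mul_distrib, Finset.prod_const, Finset.card_univ,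
    Fintype.card_fin] at h2
  exact h2

theorem GAI (hBOG : BOG_stmt) (hBST : BST_stmt) (hMVV : MVV_stmt) : GAI_stmt := by
  intro α hα
  set r : ℕ := ⌈1 / α ^ 2⌉₊ + 1 with hr
  have hr1 : 1 ≤ r := by omega
  have hrR : (1 : ℝ) ≤ (r : ℝ) := by exact_mod_cast hr1
  refine ⟨1 / ((4 * (r : ℝ)) ^ r * (8 * (r : ℝ)) ^ r * 6 ^ (r * (r + 1))), r, by positivity, ?_⟩
  intro m _ A hA
  obtain ⟨Γ₀, hΓ₀, hΓA⟩ := hBOG m A α hα hA
  classical
  set Γ : Finset (ZMod m) := insert 1 Γ₀ with hΓ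
  have h1Γ : (1 : ZMod m) ∈ Γ := Finset.mem_insert_self _ _
  have hcardΓ : Γ.card ≤ r := by
    have h1 : Γ.card ≤ Γ₀.card + 1 := Finset.card_insert_le _ _
    have h2 : Γ₀.card ≤ ⌈1 / α ^ 2⌉₊ := by
      have : (Γ₀.card : ℝ) ≤ (⌈1 / α ^ 2⌉₊ : ℝ) := hΓ₀.trans (Nat.le_ceil _)
      exact_mod_cast this
    omega
  have hΓpos : 1 ≤ Γ.card := Finset.card_pos.2 ⟨1, h1Γ⟩
  obtain ⟨E, i1, i2, i3, G, hfr, hFB, hRe, hzero, hinj, hcount⟩ := hBST m Γ h1Γ
  set q : ℕ := Γ.card with hq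
  have hqR : (1 : ℝ) ≤ (q : ℝ) := by exact_mod_cast hΓpos
  have hqr : (q : ℝ) ≤ (r : ℝ) := by exact_mod_cast hcardΓ
  set l : ℝ := 1 / ((4 * q : ℕ) : ℝ) with hl
  have hl4 : l = 1 / (4 * (q : ℝ)) := by rw [hl]; push_cast; ring
  have hlpos : 0 < l := by rw [hl4]; positivity
  have hl1 : l ≤ 1 := by
    rw [hl4, div_le_one (by positivity)]; linarith
  have hm := hcount (4 * q) (by omega)
  set s : ℕ := finrank ℝ (Submodule.span ℝ (Prod.fst '' ball G l)) with hs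
  have hsq : s ≤ q := by
    rw [← hfr]
    exact Submodule.finrank_le _
  have hsr : s ≤ r := hsq.trans hcardΓ
  obtain ⟨v, hvG, hvi, hv⟩ := hMVV E (ZMod m) G hFB s l hlpos rfl
  have hball0 : ball G 0 = {0} := by
    apply Set.eq_singleton_iff_unique_mem.2
    refine ⟨⟨G.zero_mem, by simp⟩, ?_⟩
    rintro ⟨x, y⟩ ⟨hz, hz0⟩
    have hx : x = 0 := norm_le_zero_iff.1 hz0
    subst hx
    have hy := hzero y hz
    rw [hy]
    rfl
  rw [hball0, Set.ncard_singleton, Nat.cast_one, mul_one] at hv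
  have hvpos : ∀ i, 0 < ‖(v i).1‖ := fun i => norm_pos_iff.2 (hvi.ne_zero i)
  set N : Fin s → ℕ := fun i => ⌊1 / (4 * (s : ℝ) * ‖(v i).1‖)⌋₊ with hN
  have hx1 : ∀ i : Fin s, 1 ≤ 1 / (4 * (s : ℝ) * ‖(v i).1‖) := by
    intro i
    have hs0 : 0 < s := Fin.pos i
    have hs0R : (0 : ℝ) < (s : ℝ) := by exact_mod_cast hs0
    rw [le_div_iff₀ (by have := hvpos i; positivity), one_mul]
    have h1 : ‖(v i).1‖ ≤ l := (hvG i).2
    have h2 : (s : ℝ) ≤ (q : ℝ) := by exact_mod_cast hsq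
    calc 4 * (s : ℝ) * ‖(v i).1‖ ≤ 4 * (q : ℝ) * l := by
          apply mul_le_mul _ h1 (norm_nonneg _) (by positivity)
          linarith
      _ = 1 := by rw [hl4]; field_simp
  have hN1 : ∀ i, 1 ≤ N i := fun i => Nat.le_floor (by rw [Nat.cast_one]; exact hx1 i)
  have hNle : ∀ i, (N i : ℝ) * ‖(v i).1‖ ≤ 1 / (4 * (s : ℝ)) := by
    intro i
    have hs0 : 0 < s := Fin.pos i
    have hs0R : (0 : ℝ) < (s : ℝ) := by exact_mod_cast hs0
    have h1 : (N i : ℝ) ≤ 1 / (4 * (s : ℝ) * ‖(v i).1‖) := Nat.floor_le (by positivity)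
    calc (N i : ℝ) * ‖(v i).1‖ ≤ 1 / (4 * (s : ℝ) * ‖(v i).1‖) * ‖(v i).1‖ :=
          mul_le_mul_of_nonneg_right h1 (norm_nonneg _)
      _ = 1 / (4 * (s : ℝ)) := by
          have := (hvpos i).ne'
          field_simp
  have hmemball : ∀ n : Fin s → ℤ, (∀ i, |n i| ≤ N i) → (∑ i, n i • v i) ∈ ball G (1 / 4) := by
    intro n hn
    refine ⟨G.sum_mem fun i _ => G.zsmul_mem (hvG i).1 _, ?_⟩
    rw [GAI_fst]
    rcases Nat.eq_zero_or_pos s with hs0 | hs0
    · have : ∑ i, n i • (v i).1 = 0 := by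
        apply Finset.sum_eq_zero
        intro i _
        exact absurd i.2 (by omega)
      rw [this, norm_zero]; norm_num
    · have hs0R : (0 : ℝ) < (s : ℝ) := by exact_mod_cast hs0
      calc ‖∑ i, n i • (v i).1‖ ≤ ∑ i, ‖n i • (v i).1‖ := norm_sum_le _ _
        _ ≤ ∑ _i : Fin s, 1 / (4 * (s : ℝ)) := by
            apply Finset.sum_le_sum
            intro i _
            rw [← Int.cast_smul_eq_zsmul ℝ, norm_smul]
            have h1 : ‖((n i : ℤ) : ℝ)‖ ≤ (N i : ℝ) := by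
              rw [Real.norm_eq_abs]
              have := hn i
              exact_mod_cast this
            exact (mul_le_mul_of_nonneg_right h1 (norm_nonneg _)).trans (hNle i)
        _ = 1 / 4 := by
            rw [Finset.sum_const, Finset.card_univ, Fintype.card_fin, nsmul_eq_mul]
            field_simp
  refine ⟨s, fun i => (v i).2, N, hsr, hN1, ?_, ?_, ?_⟩
  · -- the count
    set P : ℝ := ∏ i, ‖(v i).1‖ with hP
    have hPpos : 0 < P := Finset.prod_pos fun i _ => hvpos i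
    set B : ℝ := ((ball G l).ncard : ℝ) with hB
    set Q : ℝ := ∏ i, (2 * (N i : ℝ) + 1) with hQ
    have hQpos : 0 < Q := Finset.prod_pos fun i _ => by positivity
    have h8 : 1 ≤ (8 * (r : ℝ)) ^ s * P * Q := by
      apply GAI_prod (fun i => ‖(v i).1‖) (fun i => 2 * (N i : ℝ) + 1) hvpos (8 * (r : ℝ))
        (by positivity)
      intro i
      have hs0 : 0 < s := Fin.pos i
      have hs0R : (0 : ℝ) < (s : ℝ) := by exact_mod_cast hs0
      have hsrR : (s : ℝ) ≤ (r : ℝ) := by exact_mod_cast hsr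
      have h1 := GAI_floor _ (hx1 i)
      have h2 : 1 / (8 * (r : ℝ) * ‖(v i).1‖) ≤ 1 / (4 * (s : ℝ) * ‖(v i).1‖) / 2 := by
        rw [div_div]
        apply one_div_le_one_div_of_le (by have := hvpos i; positivity)
        have := (hvpos i).le
        nlinarith
      have h3 : (0 : ℝ) ≤ (N i : ℝ) := Nat.cast_nonneg _
      have h4 : 1 / (4 * (s : ℝ) * ‖(v i).1‖) / 2 ≤ (N i : ℝ) := h1
      linarith
    have hBP : B * P ≤ 6 ^ (s * (s + 1)) * l ^ s := hv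
    have hls : l ^ s ≤ 1 := pow_le_one₀ hlpos.le hl1
    have h6 : (6 : ℝ) ^ (s * (s + 1)) ≤ 6 ^ (r * (r + 1)) := by
      apply pow_le_pow_right₀ (by norm_num)
      exact Nat.mul_le_mul hsr (by omega)
    have h8' : (8 * (r : ℝ)) ^ s ≤ (8 * (r : ℝ)) ^ r :=
      pow_le_pow_right₀ (by linarith) hsr
    have hB0 : 0 ≤ B := Nat.cast_nonneg _
    have hBQ : B ≤ (8 * (r : ℝ)) ^ r * 6 ^ (r * (r + 1)) * Q := by
      have e1 : B * 1 ≤ B * ((8 * (r : ℝ)) ^ s * P * Q) := mul_le_mul_of_nonneg_left h8 hB0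
      have e2 : B * P ≤ 6 ^ (r * (r + 1)) := by
        calc B * P ≤ 6 ^ (s * (s + 1)) * l ^ s := hBP
          _ ≤ 6 ^ (s * (s + 1)) * 1 := mul_le_mul_of_nonneg_left hls (by positivity)
          _ ≤ 6 ^ (r * (r + 1)) := by rw [mul_one]; exact h6
      calc B = B * 1 := (mul_one _).symm
        _ ≤ B * ((8 * (r : ℝ)) ^ s * P * Q) := e1
        _ = (8 * (r : ℝ)) ^ s * (B * P) * Q := by ring
        _ ≤ (8 * (r : ℝ)) ^ r * 6 ^ (r * (r + 1)) * Q := by
            apply mul_le_mul_of_nonneg_right _ hQpos.le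
            exact mul_le_mul h8' e2 (by positivity) (by positivity)
    have hmB : (m : ℝ) ≤ (4 * (r : ℝ)) ^ r * B := by
      have e1 : (m : ℝ) ≤ (((4 * q) ^ q : ℕ) : ℝ) * B := by
        have : (m : ℝ) ≤ (((4 * q) ^ q * (ball G (1 / ((4 * q : ℕ) : ℝ))).ncard : ℕ) : ℝ) := by
          exact_mod_cast hm
        rw [Nat.cast_mul] at this
        exact this
      refine e1.trans (mul_le_mul_of_nonneg_right ?_ hB0)
      push_cast
      calc (4 * (q : ℝ)) ^ q ≤ (4 * (r : ℝ)) ^ q :=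
            pow_le_pow_left₀ (by positivity) (by linarith) _
        _ ≤ (4 * (r : ℝ)) ^ r := pow_le_pow_right₀ (by linarith) hcardΓ
    rw [one_div, inv_mul_le_iff₀ (by positivity)]
    calc (m : ℝ) ≤ (4 * (r : ℝ)) ^ r * B := hmB
      _ ≤ (4 * (r : ℝ)) ^ r * ((8 * (r : ℝ)) ^ r * 6 ^ (r * (r + 1)) * Q) :=
          mul_le_mul_of_nonneg_left hBQ (by positivity)
      _ = (4 * (r : ℝ)) ^ r * (8 * (r : ℝ)) ^ r * 6 ^ (r * (r + 1)) * Q := by ring
  · intro n hn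
    have hz := hmemball n hn
    have h2 := GAI_snd v n
    change ∑ i, (n i : ZMod m) * (v i).2 ∈ A + A - A - A
    rw [← h2]
    apply hΓA
    intro t ht
    exact hRe _ hz t (Finset.mem_insert_of_mem ht)
  · intro n n' hn hn' hnn
    have hz := hmemball n hn
    have hz' := hmemball n' hn'
    have h2 := GAI_snd v n
    have h2' := GAI_snd v n'
    have hnn2 : (∑ i, n i • v i).2 = (∑ i, n' i • v i).2 := by
      rw [h2, h2']; exact hnn
    have hzz := hinj _ hz _ hz' hnn2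
    have hf : ∑ i, n i • (v i).1 = ∑ i, n' i • (v i).1 := by
      rw [← GAI_fst, ← GAI_fst, hzz]
    have h0 : ∑ i, ((n i : ℝ) - (n' i : ℝ)) • (v i).1 = 0 := by
      have : ∀ i, ((n i : ℝ) - (n' i : ℝ)) • (v i).1 = n i • (v i).1 - n' i • (v i).1 := by
        intro i
        rw [sub_smul, Int.cast_smul_eq_zsmul, Int.cast_smul_eq_zsmul]
      simp_rw [this]
      rw [Finset.sum_sub_distrib, hf, sub_self]
    have h3 := Fintype.linearIndependent_iff.1 hvi (fun i => (n i : ℝ) - (n' i : ℝ)) h0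
    funext i
    have h4 := h3 i
    have h5 : (n i : ℝ) = (n' i : ℝ) := by linarith
    exact_mod_cast h5

end Pool.Agent.helper85.PG
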